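import Mathlib
import Pool.Agent.H29.OM.Lex3

/-!
# MP_6e3918_co: every uniform oriented matroid of rank `r ≥ 4` on at least `r + 3` elements
violates the extension property of Q1, at each of its elements (and, for `r ≥ 5`, at each pair of
its elements with a simple extension)

The definition of oriented matroids by signed circuits (`OMat`) and of the underlying matroid
(`OMat.toMatroid`) are those of the library module `Q288.OM.Basic`; the other definitions are in
`Pool.Agent.H29.OM.Defs`.
-/

set_option autoImplicit false

open Set Pool.Agent.Q288.OM Pool.Agent.H29.OM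

namespace Pool.Agent.Results.MP_6e3918_co.UniformSubCuts

theorem result :
    -- (1) let `O` be an oriented matroid and `x 0, …, x 5` elements in general position over `A`
    (∀ (α : Type) [Finite α] (O : OMat α) (A : Set α) (x : Fin 6 → α), Generic6 O A x →
      -- one of three sets of flats (the pairings `01|23|45`, `02|13|45`, `03|12|45` of the six
      -- elements) corresponds to no oriented extension of `O`
      (¬ Realized O (planesCut O A x) ∨ ¬ Realized O (planesCut O A (x ∘ Equiv.swap 1 2)) ∨
        ¬ Realized O (planesCut O A (x ∘ Equiv.swap 0 2))) ∧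
      -- if no element outside the closure of `A` lies on two of the hyperplanes, these sets are
      -- modular cuts, and `O` violates the extension property at each element of `A`
      (Separated O A x →
        (∀ σ : Equiv.Perm (Fin 6), IsModularCut O.toMatroid (planesCut O A (x ∘ σ)) ∧
          ∀ a ∈ A, planesCut O A (x ∘ σ) ⊆ throughCut O a) ∧
        ∀ a ∈ A, FailsAt O a)) ∧
    -- (2) if `O` is uniform of rank `r ≥ 3`, this applies to all `A` with `|A| = r - 3` and all six
    -- elements outside `A`
    (∀ (α : Type) [Finite α] (O : OMat α) (r : ℕ), IsUniform O r → 3 ≤ r →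
      ∀ (A : Set α) (x : Fin 6 → α), A.ncard = r - 3 → Function.Injective x → (∀ i, x i ∉ A) →
        Generic6 O A x ∧ Separated O A x) ∧
    -- (3) every uniform oriented matroid of rank `r ≥ 4` on at least `r + 3` elements violates the
    -- extension property at each of its elements, and, if `r ≥ 5`, at each pair of its elements,
    -- with a simple extension
    (∀ (α : Type) [Finite α] (O : OMat α) (r : ℕ), IsUniform O r → 4 ≤ r →
      r + 3 ≤ Nat.card α →
      (∀ a : α, FailsAt O a) ∧ (5 ≤ r → ∀ a b : α, a ≠ b → FailsAtPair O a b)) ∧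
    -- (4) there are uniform oriented matroids of every rank `r` on `n` elements, `n ≥ r`
    (∀ r n : ℕ, r ≤ n → ∃ O : OMat (Fin n), IsUniform O r) ∧
    -- (5) the statement of Q1 is false
    ¬ (∀ (α : Type) [Finite α] (O : OMat α) (𝓜 𝓜' : Set (Set α)),
      IsModularCut O.toMatroid 𝓜 → Realized O 𝓜 → IsModularCut O.toMatroid 𝓜' → 𝓜' ⊆ 𝓜 →
      Realized O 𝓜') :=
  ⟨fun _ _ _ _ _ G => ⟨G.not_all, fun S =>
      ⟨fun σ => ⟨(G.perm σ).modular (S.perm σ), fun _ ha => planesCut_subset ha⟩,
        fun _ ha => G.failsAt S ha⟩⟩,
    fun _ _ _ _ hU hr _ _ hA hx hxA =>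
      ⟨hU.generic hr hA hx hxA, hU.separated hr hA hx hxA⟩,
    fun _ _ _ _ hU hr hn => ⟨fun a => uniform_fails hU hr hn a,
      fun h5 _ _ hab => uniform_fails_pair hU h5 hn hab⟩,
    exists_uniform, q1_false⟩

end Pool.Agent.Results.MP_6e3918_co.UniformSubCuts
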